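import Pool.Agent.H98.KS.Targets3

/-!
# MP_ff41bc_an, module AX: averages along `q Z`
helper36
-/

open scoped BigOperators

noncomputable section

namespace Pool.Agent.H36.KS

open Pool.Agent.H98.KS

theorem ee_eq (x : ℝ) : ee x = Complex.exp (Complex.I * ((2 * Real.pi * x : ℝ) : ℂ)) := by
  unfold ee
  congr 1
  push_cast
  ring

theorem ee_norm (x : ℝ) : ‖ee x‖ = 1 := by
  rw [ee_eq, mul_comm]
  exact Complex.norm_exp_ofReal_mul_I _

theorem ee_add (x y : ℝ) : ee (x + y) = ee x * ee y := by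
  unfold ee
  rw [← Complex.exp_add]
  congr 1
  push_cast
  ring

theorem ee_int (m : ℤ) : ee (m : ℝ) = 1 := by
  unfold ee
  rw [show (2 * (Real.pi : ℂ) * ((m : ℝ) : ℂ) * Complex.I) = (m : ℂ) * (2 * Real.pi * Complex.I) by
    push_cast; ring]
  exact Complex.exp_int_mul_two_pi_mul_I m

theorem ee_sub_one_le (x : ℝ) : ‖ee x - 1‖ ≤ 2 * Real.pi * |x| := by
  rw [ee_eq]
  refine (Real.norm_exp_I_mul_ofReal_sub_one_le).trans ?_
  rw [Real.norm_eq_abs, abs_mul, abs_of_pos (by positivity)]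

theorem ee_sub_one_ge (x : ℝ) (hx : |x| ≤ 1 / 2) : 4 * |x| ≤ ‖ee x - 1‖ := by
  rw [ee_eq, Complex.norm_exp_I_mul_ofReal_sub_one, Real.norm_eq_abs, abs_mul]
  have h1 : |Real.sin (2 * Real.pi * x / 2)| = Real.sin (Real.pi * |x|) := by
    rcases abs_cases x with ⟨h, h'⟩ | ⟨h, h'⟩
    · rw [h, show 2 * Real.pi * x / 2 = Real.pi * x by ring, abs_of_nonneg]
      apply Real.sin_nonneg_of_nonneg_of_le_pi
      · positivity
      · rw [h] at hx
        nlinarith [Real.pi_pos]
    · rw [h, show 2 * Real.pi * x / 2 = -(Real.pi * (-x)) by ring, Real.sin_neg, abs_neg, abs_of_nonneg]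
      apply Real.sin_nonneg_of_nonneg_of_le_pi
      · have : 0 ≤ -x := by linarith
        positivity
      · rw [h] at hx
        nlinarith [Real.pi_pos]
  rw [h1]
  have h2 : 2 / Real.pi * (Real.pi * |x|) ≤ Real.sin (Real.pi * |x|) := by
    apply Real.mul_le_sin
    · positivity
    · nlinarith [Real.pi_pos]
  have h3 : 2 / Real.pi * (Real.pi * |x|) = 2 * |x| := by
    field_simp
  rw [abs_of_pos (by norm_num : (0 : ℝ) < 2)]
  linarith

theorem icc_tel (J : ℕ) (f : ℤ → ℂ) :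
    ∑ j ∈ Finset.Icc (-(J : ℤ)) J, (f (j + 1) - f j) = f (J + 1) - f (-J) := by
  induction J with
  | zero => simp
  | succ J ih =>
    have h : Finset.Icc (-((J + 1 : ℕ) : ℤ)) ((J + 1 : ℕ) : ℤ)
        = insert (-((J : ℤ) + 1)) (insert ((J : ℤ) + 1) (Finset.Icc (-(J : ℤ)) J)) := by
      ext x
      simp only [Finset.mem_Icc, Finset.mem_insert]
      push_cast
      omega
    rw [h, Finset.sum_insert, Finset.sum_insert, ih]
    · push_cast
      rw [show -((J : ℤ) + 1) + 1 = -J by ring]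
      ring
    · simp only [Finset.mem_Icc]
      omega
    · simp only [Finset.mem_Icc, Finset.mem_insert]
      omega

theorem card_icc (J : ℕ) : (Finset.Icc (-(J : ℤ)) J).card = 2 * J + 1 := by
  rw [Int.card_Icc]
  omega

theorem ks_AX : T_AX := by
  intro q X b β hq hβ
  set J := X / q with hJ
  have hq0 : (0 : ℝ) < q := by exact_mod_cast hq
  have hE : ∀ j : ℤ, ee (-(q * j * ((b : ℝ) / q + β))) = ee (-(q * j * β)) := by
    intro j
    have : -((q : ℝ) * j * ((b : ℝ) / q + β)) = ((-(j * b) : ℤ) : ℝ) + (-(q * j * β)) := by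
      push_cast
      field_simp
      ring
    rw [this, ee_add, ee_int, one_mul]
  have hJX : q * J ≤ X := Nat.mul_div_le X q
  have hJX' : X < q * (J + 1) := by
    have := Nat.lt_mul_div_succ X (show 0 < q by omega)
    simpa [hJ] using this
  have haX : aX q J ((b : ℝ) / q + β)
      = (1 / (2 * (J : ℂ) + 1)) * ∑ j ∈ Finset.Icc (-(J : ℤ)) J, ee (-(q * j * β)) := by
    unfold aX
    congr 1
    exact Finset.sum_congr rfl fun j _ => hE j
  have hn0 : (0 : ℝ) < 2 * J + 1 := by positivity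
  have hnC : (2 * (J : ℂ) + 1) ≠ 0 := by
    have : ((2 * (J : ℝ) + 1 : ℝ) : ℂ) ≠ 0 := by exact_mod_cast hn0.ne'
    simpa using this
  have hnn : ‖(1 / (2 * (J : ℂ) + 1))‖ = 1 / (2 * (J : ℝ) + 1) := by
    have : (1 / (2 * (J : ℂ) + 1)) = ((1 / (2 * (J : ℝ) + 1) : ℝ) : ℂ) := by push_cast; rfl
    rw [this, Complex.norm_real, Real.norm_eq_abs, abs_of_pos (by positivity)]
  refine ⟨?_, ?_, ?_⟩
  · rw [haX, norm_mul, hnn]
    have : ‖∑ j ∈ Finset.Icc (-(J : ℤ)) J, ee (-(q * j * β))‖ ≤ 2 * J + 1 := by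
      refine (norm_sum_le _ _).trans ?_
      simp only [ee_norm, Finset.sum_const, card_icc, nsmul_eq_mul, mul_one]
      push_cast
      exact le_refl _
    calc 1 / (2 * (J : ℝ) + 1) * ‖∑ j ∈ Finset.Icc (-(J : ℤ)) J, ee (-(q * j * β))‖
        ≤ 1 / (2 * (J : ℝ) + 1) * (2 * J + 1) := by gcongr
      _ = 1 := by field_simp
  · have h1 : aX q J ((b : ℝ) / q + β) - 1
        = (1 / (2 * (J : ℂ) + 1)) * ∑ j ∈ Finset.Icc (-(J : ℤ)) J, (ee (-(q * j * β)) - 1) := by
      rw [haX, Finset.sum_sub_distrib, mul_sub, Finset.sum_const, card_icc, nsmul_eq_mul]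
      congr 1
      push_cast
      field_simp
    rw [h1, norm_mul, hnn]
    have h2 : ‖∑ j ∈ Finset.Icc (-(J : ℤ)) J, (ee (-(q * j * β)) - 1)‖
        ≤ (2 * J + 1) * (7 * (X * |β|)) := by
      refine (norm_sum_le _ _).trans ?_
      have h3 : ∀ j ∈ Finset.Icc (-(J : ℤ)) J, ‖ee (-(q * j * β)) - 1‖ ≤ 7 * (X * |β|) := by
        intro j hj
        refine (ee_sub_one_le _).trans ?_
        rw [Finset.mem_Icc] at hj
        have hj' : |(j : ℝ)| ≤ J := by
          rw [abs_le]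
          constructor
          · exact_mod_cast hj.1
          · exact_mod_cast hj.2
        have h4 : |(-((q : ℝ) * j * β))| ≤ X * |β| := by
          rw [abs_neg, abs_mul, abs_mul, abs_of_pos hq0]
          have h5 : (q : ℝ) * |(j : ℝ)| ≤ X := by
            calc (q : ℝ) * |(j : ℝ)| ≤ q * J := by gcongr
              _ ≤ X := by exact_mod_cast hJX
          gcongr
        have hpi : 2 * Real.pi ≤ 7 := by
          have := Real.pi_lt_d2
          linarith
        calc 2 * Real.pi * |(-((q : ℝ) * j * β))| ≤ 2 * Real.pi * (X * |β|) := by gcongr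
          _ ≤ 7 * (X * |β|) := by
              have : 0 ≤ (X : ℝ) * |β| := by positivity
              nlinarith
      refine (Finset.sum_le_sum h3).trans ?_
      rw [Finset.sum_const, card_icc, nsmul_eq_mul]
      push_cast
      exact le_refl _
    calc 1 / (2 * (J : ℝ) + 1) * ‖∑ j ∈ Finset.Icc (-(J : ℤ)) J, (ee (-(q * j * β)) - 1)‖
        ≤ 1 / (2 * (J : ℝ) + 1) * ((2 * J + 1) * (7 * (X * |β|))) := by gcongr
      _ = 7 * (X * |β|) := by field_simp
  · rcases eq_or_ne β 0 with h0 | h0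
    · subst h0
      simp
    have hb0 : 0 < |β| := abs_pos.mpr h0
    have hphi : |(-((q : ℝ) * β))| ≤ 1 / 2 := by
      rw [abs_neg, abs_mul, abs_of_pos hq0]
      calc (q : ℝ) * |β| ≤ q * (1 / (2 * q)) := by gcongr
        _ = 1 / 2 := by field_simp
    have h1 := ee_sub_one_ge _ hphi
    rw [abs_neg, abs_mul, abs_of_pos hq0] at h1
    set S := ∑ j ∈ Finset.Icc (-(J : ℤ)) J, ee (-(q * j * β)) with hS
    have h2 : (ee (-((q : ℝ) * β)) - 1) * S
        = ee (-(q * ((J + 1 : ℤ) : ℝ) * β)) - ee (-(q * ((-J : ℤ) : ℝ) * β)) := by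
      have := icc_tel J (fun j : ℤ => ee (-(q * (j : ℝ) * β)))
      rw [← this, hS, Finset.mul_sum]
      refine Finset.sum_congr rfl fun j _ => ?_
      have : -((q : ℝ) * ((j + 1 : ℤ) : ℝ) * β) = -((q : ℝ) * β) + -((q : ℝ) * j * β) := by
        push_cast
        ring
      rw [this, ee_add]
      ring
    have h3 : ‖ee (-((q : ℝ) * β)) - 1‖ * ‖S‖ ≤ 2 := by
      rw [← norm_mul, h2]
      refine (norm_sub_le _ _).trans ?_
      rw [ee_norm, ee_norm]
      norm_num
    have h4 : 4 * (q * |β|) * ‖S‖ ≤ 2 := by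
      refine le_trans ?_ h3
      gcongr
    rw [haX, norm_mul, hnn]
    have h5 : (X : ℝ) ≤ q * (2 * J + 1) := by
      have : X ≤ q * (2 * J + 1) := by
        calc X ≤ q * (J + 1) := hJX'.le
          _ ≤ q * (2 * J + 1) := by gcongr; omega
      exact_mod_cast this
    have h6 : (X : ℝ) * |β| * (1 / (2 * (J : ℝ) + 1) * ‖S‖)
        ≤ (q * (2 * J + 1)) * |β| * (1 / (2 * (J : ℝ) + 1) * ‖S‖) := by
      gcongr
    refine h6.trans ?_
    have h7 : ((q : ℝ) * (2 * J + 1)) * |β| * (1 / (2 * (J : ℝ) + 1) * ‖S‖) = q * |β| * ‖S‖ := by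
      field_simp
    rw [h7]
    nlinarith

end Pool.Agent.H36.KS
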