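import Pool.Agent.H98.KS.Targets3

/-!
# MP_ff41bc_an, module D2: dyadic sum of squares
helper36
-/

open scoped BigOperators

noncomputable section

namespace Pool.Agent.H36.KS

open Pool.Agent.H98.KS

theorem geo_le (r : ℝ) (h0 : 0 ≤ r) (h1 : r < 1) (T : Finset ℕ) (φ : ℕ → ℕ)
    (hφ : Set.InjOn φ (T : Set ℕ)) : ∑ j ∈ T, r ^ (φ j) ≤ 1 / (1 - r) := by
  rw [← Finset.sum_image (g := φ) (f := fun i => r ^ i) hφ]
  have := Summable.sum_le_tsum (f := fun i => r ^ i) (T.image φ) (fun i _ => by positivity)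
    (summable_geometric_of_lt_one h0 h1)
  rwa [tsum_geometric_of_lt_one h0 h1, ← one_div] at this

/-- geometric sums with ratio 1/4, dominated from the minimum -/
theorem sum_a (B : ℝ) (hB : 0 ≤ B) (T : Finset ℕ) (h : ∀ j ∈ T, (2 : ℝ) ^ j * B ≤ 1) :
    ∑ j ∈ T, ((2 : ℝ) ^ j * B) ^ 2 ≤ 4 / 3 := by
  rcases T.eq_empty_or_nonempty with hT | hT
  · subst hT
    norm_num
  set j1 := T.max' hT with hj1
  have hj1T : j1 ∈ T := T.max'_mem hT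
  have h1 : ∀ j ∈ T, ((2 : ℝ) ^ j * B) ^ 2 ≤ (1 / 4 : ℝ) ^ (j1 - j) := by
    intro j hj
    have hle : j ≤ j1 := T.le_max' j hj
    obtain ⟨i, hi⟩ := Nat.exists_eq_add_of_le hle
    have h2 := h j1 hj1T
    rw [hi] at h2
    rw [hi, Nat.add_sub_cancel_left]
    have h3 : ((2 : ℝ) ^ j * B) ^ 2 = ((2 : ℝ) ^ (j + i) * B) ^ 2 * (1 / 4 : ℝ) ^ i := by
      rw [pow_add, show (1 / 4 : ℝ) ^ i = ((1 / 2 : ℝ) ^ i) ^ 2 by
        rw [← pow_mul, mul_comm, pow_mul]; norm_num]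
      have : (2 : ℝ) ^ i * (1 / 2 : ℝ) ^ i = 1 := by
        rw [← mul_pow]; norm_num
      calc ((2 : ℝ) ^ j * B) ^ 2 = ((2 : ℝ) ^ j * B) ^ 2 * ((2 : ℝ) ^ i * (1 / 2 : ℝ) ^ i) ^ 2 := by
            rw [this]; ring
        _ = _ := by ring
    rw [h3]
    have h4 : ((2 : ℝ) ^ (j + i) * B) ^ 2 ≤ 1 := by
      have : 0 ≤ (2 : ℝ) ^ (j + i) * B := by positivity
      nlinarith
    have h5 : (0 : ℝ) ≤ (1 / 4 : ℝ) ^ i := by positivity
    nlinarith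
  refine (Finset.sum_le_sum h1).trans ?_
  have := geo_le (1 / 4) (by norm_num) (by norm_num) T (fun j => j1 - j) (by
    intro x hx y hy hxy
    have hx' : x ≤ j1 := T.le_max' x hx
    have hy' : y ≤ j1 := T.le_max' y hy
    simp only at hxy
    omega)
  refine this.trans ?_
  norm_num

theorem sum_c (B K : ℝ) (hB : 0 ≤ B) (hK : 1 ≤ K) (T : Finset ℕ) (h : ∀ j ∈ T, K < (2 : ℝ) ^ j * B) :
    ∑ j ∈ T, (K / ((2 : ℝ) ^ j * B)) ^ 2 ≤ 4 / 3 := by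
  rcases T.eq_empty_or_nonempty with hT | hT
  · subst hT
    norm_num
  set j1 := T.min' hT with hj1
  have hj1T : j1 ∈ T := T.min'_mem hT
  have hB0 : 0 < B := by
    rcases hB.lt_or_eq with h0 | h0
    · exact h0
    · have := h j1 hj1T
      rw [← h0] at this
      simp at this
      linarith
  have h1 : ∀ j ∈ T, (K / ((2 : ℝ) ^ j * B)) ^ 2 ≤ (1 / 4 : ℝ) ^ (j - j1) := by
    intro j hj
    have hle : j1 ≤ j := T.min'_le j hj
    obtain ⟨i, hi⟩ := Nat.exists_eq_add_of_le hle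
    have h2 := h j1 hj1T
    rw [hi, Nat.add_sub_cancel_left]
    have h3 : (K / ((2 : ℝ) ^ (j1 + i) * B)) = (K / ((2 : ℝ) ^ j1 * B)) * (1 / 2 : ℝ) ^ i := by
      rw [pow_add]
      field_simp
      rw [← mul_pow]
      norm_num
    rw [h3, show (1 / 4 : ℝ) ^ i = ((1 / 2 : ℝ) ^ i) ^ 2 by
        rw [← pow_mul, mul_comm, pow_mul]; norm_num, mul_pow]
    have h4 : (K / ((2 : ℝ) ^ j1 * B)) ≤ 1 := by
      rw [div_le_one (by positivity)]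
      exact h2.le
    have h5 : 0 ≤ (K / ((2 : ℝ) ^ j1 * B)) := by positivity
    have h6 : (K / ((2 : ℝ) ^ j1 * B)) ^ 2 ≤ 1 := by nlinarith
    have h7 : 0 ≤ ((1 / 2 : ℝ) ^ i) ^ 2 := by positivity
    nlinarith
  refine (Finset.sum_le_sum h1).trans ?_
  have := geo_le (1 / 4) (by norm_num) (by norm_num) T (fun j => j - j1) (by
    intro x hx y hy hxy
    have hx' : j1 ≤ x := T.min'_le x hx
    have hy' : j1 ≤ y := T.min'_le y hy
    simp only at hxy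
    omega)
  refine this.trans ?_
  norm_num

theorem card_b (B K : ℝ) (hK : 1 ≤ K) (T : Finset ℕ)
    (h : ∀ j ∈ T, 1 < (2 : ℝ) ^ j * B ∧ (2 : ℝ) ^ j * B ≤ K) :
    (T.card : ℝ) ≤ 3 * Real.log (2 + K) := by
  have hlog1 : 1 ≤ Real.log (2 + K) := by
    rw [Real.le_log_iff_exp_le (by linarith)]
    have := Real.exp_one_lt_d9
    linarith
  rcases T.eq_empty_or_nonempty with hT | hT
  · subst hT
    simp
    linarith
  set j1 := T.min' hT with hj1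
  set j2 := T.max' hT with hj2
  have hj1T : j1 ∈ T := T.min'_mem hT
  have hj2T : j2 ∈ T := T.max'_mem hT
  have hle : j1 ≤ j2 := T.le_max' _ hj1T
  have hcard : T.card ≤ j2 - j1 + 1 := by
    have : T ⊆ Finset.Icc j1 j2 := by
      intro x hx
      rw [Finset.mem_Icc]
      exact ⟨T.min'_le x hx, T.le_max' x hx⟩
    have := Finset.card_le_card this
    rw [Nat.card_Icc] at this
    omega
  have h2 : (2 : ℝ) ^ (j2 - j1) ≤ K := by
    have ha := (h j1 hj1T).1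
    have hb := (h j2 hj2T).2
    obtain ⟨i, hi⟩ := Nat.exists_eq_add_of_le hle
    rw [hi, Nat.add_sub_cancel_left]
    rw [hi, pow_add] at hb
    have h5 : (0 : ℝ) ≤ 2 ^ i := by positivity
    nlinarith
  have h3 : ((j2 - j1 : ℕ) : ℝ) * Real.log 2 ≤ Real.log (2 + K) := by
    have h4 : Real.log ((2 : ℝ) ^ (j2 - j1)) ≤ Real.log (2 + K) := by
      apply Real.log_le_log (by positivity)
      linarith
    rwa [Real.log_pow] at h4
  have hl2 : (1 : ℝ) / 2 ≤ Real.log 2 := by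
    have := Real.log_two_gt_d9
    linarith
  have h5 : ((j2 - j1 : ℕ) : ℝ) ≤ 2 * Real.log (2 + K) := by
    have h6 : (0 : ℝ) ≤ ((j2 - j1 : ℕ) : ℝ) := by positivity
    nlinarith
  have h6 : (T.card : ℝ) ≤ ((j2 - j1 : ℕ) : ℝ) + 1 := by exact_mod_cast hcard
  linarith

/-- `2^(-1/20)` -/
def rr : ℝ := (2 : ℝ) ^ (-((1 : ℝ) / 20))

theorem rr_pos : 0 < rr := Real.rpow_pos_of_pos (by norm_num) _

theorem rr_lt : rr < 1 := Real.rpow_lt_one_of_one_lt_of_neg (by norm_num) (by norm_num)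

theorem pow_rr (j : ℕ) : ((2 : ℝ) ^ j) ^ (-((1 : ℝ) / 20)) = rr ^ j := by
  unfold rr
  rw [← Real.rpow_natCast, ← Real.rpow_mul (by norm_num), mul_comm, Real.rpow_mul (by norm_num),
    Real.rpow_natCast]

theorem sum_g (ρ : ℝ) (T : Finset ℕ) (h : ∀ j ∈ T, rr ^ j ≤ ρ) :
    ∑ j ∈ T, (rr ^ j) ^ 2 ≤ ρ ^ 2 * (1 / (1 - rr ^ 2)) := by
  have hr0 := rr_pos
  have hr1 := rr_lt
  have hr2 : rr ^ 2 < 1 := by nlinarith
  rcases T.eq_empty_or_nonempty with hT | hT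
  · subst hT
    have : 0 < 1 - rr ^ 2 := by linarith
    simp
    positivity
  set j1 := T.min' hT with hj1
  have hj1T : j1 ∈ T := T.min'_mem hT
  have h1 : ∀ j ∈ T, (rr ^ j) ^ 2 ≤ ρ ^ 2 * (rr ^ 2) ^ (j - j1) := by
    intro j hj
    have hle : j1 ≤ j := T.min'_le j hj
    obtain ⟨i, hi⟩ := Nat.exists_eq_add_of_le hle
    have h2 := h j1 hj1T
    rw [hi, Nat.add_sub_cancel_left]
    have h3 : (rr ^ (j1 + i)) ^ 2 = (rr ^ j1) ^ 2 * (rr ^ 2) ^ i := by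
      rw [← pow_mul, ← pow_mul, ← pow_mul, ← pow_add]
      congr 1
      ring
    rw [h3]
    gcongr
  refine (Finset.sum_le_sum h1).trans ?_
  rw [← Finset.mul_sum]
  gcongr
  exact geo_le (rr ^ 2) (by positivity) hr2 T (fun j => j - j1) (by
    intro x hx y hy hxy
    have hx' : j1 ≤ x := T.min'_le x hx
    have hy' : j1 ≤ y := T.min'_le y hy
    simp only at hxy
    omega)

theorem ks_D2 : T_D2 := by
  have hr0 := rr_pos
  have hr1 := rr_lt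
  have hr2 : rr ^ 2 < 1 := by nlinarith
  have hC0 : 0 < 1 / (1 - rr ^ 2) := by
    have : 0 < 1 - rr ^ 2 := by linarith
    positivity
  set C0 := 1 / (1 - rr ^ 2) with hC0d
  refine ⟨8 / 3 + 12 + 32 / 3 + 2 * C0, by linarith, ?_⟩
  intro ρ B K I f hρ hB hK h
  have hlog1 : 1 ≤ Real.log (2 + K) := by
    rw [Real.le_log_iff_exp_le (by linarith)]
    have := Real.exp_one_lt_d9
    linarith
  set Ia := I.filter (fun j => (2 : ℝ) ^ j * B ≤ 1) with hIa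
  set Ib := I.filter (fun j => 1 < (2 : ℝ) ^ j * B ∧ (2 : ℝ) ^ j * B ≤ K) with hIb
  set Ic := I.filter (fun j => K < (2 : ℝ) ^ j * B) with hIc
  have hpt : ∀ j ∈ I, (f j) ^ 2 ≤ 2 * (rr ^ j) ^ 2
      + ((if (2 : ℝ) ^ j * B ≤ 1 then 2 * ρ ^ 2 * ((2 : ℝ) ^ j * B) ^ 2 else 0)
      + (if 1 < (2 : ℝ) ^ j * B ∧ (2 : ℝ) ^ j * B ≤ K then 4 * ρ ^ 2 else 0)
      + (if K < (2 : ℝ) ^ j * B then 8 * ρ ^ 2 * (K / ((2 : ℝ) ^ j * B)) ^ 2 else 0)) := by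
    intro j hj
    obtain ⟨h1, h2, h3, h4⟩ := h j hj
    rw [pow_rr] at h2 h3 h4
    have hg : 0 < rr ^ j := by positivity
    by_cases ha : (2 : ℝ) ^ j * B ≤ 1
    · have hb : ¬ (1 < (2 : ℝ) ^ j * B ∧ (2 : ℝ) ^ j * B ≤ K) := fun hh => by linarith [hh.1]
      have hc : ¬ (K < (2 : ℝ) ^ j * B) := fun hh => by linarith
      rw [if_pos ha, if_neg hb, if_neg hc]
      have h5 := h3 ha
      set x := (2 : ℝ) ^ j * B
      have : (f j) ^ 2 ≤ (ρ * x + rr ^ j) ^ 2 := by gcongr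
      nlinarith [sq_nonneg (ρ * x - rr ^ j)]
    · push Not at ha
      obtain ⟨h5, h6⟩ := h4 ha
      rw [if_neg (by linarith)]
      by_cases hb : (2 : ℝ) ^ j * B ≤ K
      · rw [if_pos ⟨ha, hb⟩, if_neg (by linarith)]
        have : (f j) ^ 2 ≤ (2 * ρ) ^ 2 := by gcongr
        nlinarith [sq_nonneg (rr ^ j)]
      · push Not at hb
        rw [if_neg (fun hh => by linarith [hh.2]), if_pos hb]
        set y := K / ((2 : ℝ) ^ j * B)
        have : (f j) ^ 2 ≤ (2 * ρ * y + rr ^ j) ^ 2 := by gcongr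
        nlinarith [sq_nonneg (2 * ρ * y - rr ^ j)]
  refine (Finset.sum_le_sum hpt).trans ?_
  rw [Finset.sum_add_distrib, Finset.sum_add_distrib, Finset.sum_add_distrib, ← Finset.sum_filter,
    ← Finset.sum_filter, ← Finset.sum_filter]
  have s1 : ∑ j ∈ I, 2 * (rr ^ j) ^ 2 = 2 * ∑ j ∈ I, (rr ^ j) ^ 2 := (Finset.mul_sum _ _ _).symm
  have s2 : ∑ j ∈ Ia, 2 * ρ ^ 2 * ((2 : ℝ) ^ j * B) ^ 2 = 2 * ρ ^ 2 * ∑ j ∈ Ia, ((2 : ℝ) ^ j * B) ^ 2 :=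
    (Finset.mul_sum _ _ _).symm
  have s3 : ∑ j ∈ Ic, 8 * ρ ^ 2 * (K / ((2 : ℝ) ^ j * B)) ^ 2
      = 8 * ρ ^ 2 * ∑ j ∈ Ic, (K / ((2 : ℝ) ^ j * B)) ^ 2 := (Finset.mul_sum _ _ _).symm
  rw [s1, s2, s3]
  have e1 : ∑ j ∈ I, (rr ^ j) ^ 2 ≤ ρ ^ 2 * C0 := by
    apply sum_g
    intro j hj
    have := (h j hj).2.1
    rwa [pow_rr] at this
  have e2 : ∑ j ∈ Ia, ((2 : ℝ) ^ j * B) ^ 2 ≤ 4 / 3 := by
    apply sum_a B hB
    intro j hj
    exact (Finset.mem_filter.mp hj).2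
  have e3 : ∑ j ∈ Ib, 4 * ρ ^ 2 ≤ 4 * ρ ^ 2 * (3 * Real.log (2 + K)) := by
    rw [Finset.sum_const, nsmul_eq_mul, mul_comm]
    gcongr
    apply card_b B K hK
    intro j hj
    exact (Finset.mem_filter.mp hj).2
  have e4 : ∑ j ∈ Ic, (K / ((2 : ℝ) ^ j * B)) ^ 2 ≤ 4 / 3 := by
    apply sum_c B K hB hK
    intro j hj
    exact (Finset.mem_filter.mp hj).2
  have hρ2 : 0 < ρ ^ 2 := by positivity
  calc 2 * ∑ j ∈ I, (rr ^ j) ^ 2 + (2 * ρ ^ 2 * ∑ j ∈ Ia, ((2 : ℝ) ^ j * B) ^ 2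
        + ∑ j ∈ Ib, 4 * ρ ^ 2 + 8 * ρ ^ 2 * ∑ j ∈ Ic, (K / ((2 : ℝ) ^ j * B)) ^ 2)
      ≤ 2 * (ρ ^ 2 * C0) + (2 * ρ ^ 2 * (4 / 3) + 4 * ρ ^ 2 * (3 * Real.log (2 + K))
        + 8 * ρ ^ 2 * (4 / 3)) := by gcongr
    _ = ρ ^ 2 * (2 * C0 + 8 / 3 + 32 / 3) + 12 * ρ ^ 2 * Real.log (2 + K) := by ring
    _ ≤ ρ ^ 2 * (2 * C0 + 8 / 3 + 32 / 3) * Real.log (2 + K) + 12 * ρ ^ 2 * Real.log (2 + K) := by
        have : 0 ≤ ρ ^ 2 * (2 * C0 + 8 / 3 + 32 / 3) := by positivity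
        nlinarith
    _ = (8 / 3 + 12 + 32 / 3 + 2 * C0) * ρ ^ 2 * Real.log (2 + K) := by ring

end Pool.Agent.H36.KS
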