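import Pool.Agent.H98.KS.Targets3

/-!
# MP_ff41bc_an, module LW: measure of the low arcs
helper36
-/

open scoped BigOperators

noncomputable section

namespace Pool.Agent.H36.KS

open Pool.Agent.H98.KS

theorem sum_rpow_le (t : ℝ) (ht : 0 < t) (ht1 : t ≤ 1) (M : ℕ) :
    ∑ q ∈ Finset.Icc 1 M, (q : ℝ) ^ (t - 1) ≤ (M : ℝ) ^ t / t := by
  induction M with
  | zero => simp [Real.zero_rpow ht.ne']
  | succ M ih =>
    rw [Finset.sum_Icc_succ_top (by omega)]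
    have hM : (0 : ℝ) < ((M + 1 : ℕ) : ℝ) := by positivity
    have h1 : (M : ℝ) ^ t ≤ ((M + 1 : ℕ) : ℝ) ^ t * (1 - t / ((M + 1 : ℕ) : ℝ)) := by
      have h2 : (M : ℝ) = ((M + 1 : ℕ) : ℝ) * (1 + (-(1 / ((M + 1 : ℕ) : ℝ)))) := by
        push_cast
        field_simp
        ring
      have h3 : (-1 : ℝ) ≤ -(1 / ((M + 1 : ℕ) : ℝ)) := by
        have : 1 / ((M + 1 : ℕ) : ℝ) ≤ 1 := by
          rw [div_le_one hM]
          push_cast
          linarith [(Nat.cast_nonneg M : (0 : ℝ) ≤ M)]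
        linarith
      calc (M : ℝ) ^ t = (((M + 1 : ℕ) : ℝ) * (1 + (-(1 / ((M + 1 : ℕ) : ℝ))))) ^ t := by rw [← h2]
        _ = ((M + 1 : ℕ) : ℝ) ^ t * (1 + (-(1 / ((M + 1 : ℕ) : ℝ)))) ^ t := by
            rw [Real.mul_rpow hM.le (by linarith)]
        _ ≤ ((M + 1 : ℕ) : ℝ) ^ t * (1 + t * (-(1 / ((M + 1 : ℕ) : ℝ)))) := by
            gcongr
            exact rpow_one_add_le_one_add_mul_self h3 ht.le ht1
        _ = _ := by ring
    have h4 : ((M + 1 : ℕ) : ℝ) ^ (t - 1) = ((M + 1 : ℕ) : ℝ) ^ t / ((M + 1 : ℕ) : ℝ) := by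
      rw [Real.rpow_sub_one hM.ne']
    rw [h4]
    have h5 : (M : ℝ) ^ t / t ≤ (((M + 1 : ℕ) : ℝ) ^ t * (1 - t / ((M + 1 : ℕ) : ℝ))) / t := by
      gcongr
    have h6 : (((M + 1 : ℕ) : ℝ) ^ t * (1 - t / ((M + 1 : ℕ) : ℝ))) / t
        = ((M + 1 : ℕ) : ℝ) ^ t / t - ((M + 1 : ℕ) : ℝ) ^ t / ((M + 1 : ℕ) : ℝ) := by
      field_simp
    linarith

theorem ks_LW : T_LW := by
  intro k hk
  have hk' : (3 : ℝ) ≤ k := by exact_mod_cast hk
  set t : ℝ := 2 / (2 * k - 1) with htd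
  have hd : (0 : ℝ) < 2 * k - 1 := by linarith
  have ht : 0 < t := by positivity
  have ht1 : t ≤ 1 := by
    rw [htd, div_le_one hd]
    linarith
  have hs : 1 / ((k : ℝ) * e1 k) = 2 - t := by
    rw [htd]
    unfold e1 e0
    have h1 : (k : ℝ) ≠ 0 := by positivity
    have h2 : (k : ℝ) - 1 ≠ 0 := by linarith
    have h3 : (2 * (k : ℝ) - 1) ≠ 0 := hd.ne'
    have h4 : (k : ℝ) * ((1 / (2 * (k : ℝ)) + 1 / (2 * ((k : ℝ) - 1))) / 2)
        = (2 * k - 1) / (4 * (k - 1)) := by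
      field_simp
      ring
    rw [h4]
    field_simp
    ring
  refine ⟨1 / t, by positivity, fun Y hY => ?_⟩
  have hY0 : (0 : ℝ) < Y := by linarith
  have h1 : ∀ q ∈ Finset.Icc 1 ⌊Y⌋₊, (q : ℝ) * kap k Y q = Y ^ (2 - t) * (q : ℝ) ^ (t - 1) := by
    intro q hq
    rw [Finset.mem_Icc] at hq
    have hq0 : (0 : ℝ) < q := by exact_mod_cast hq.1
    unfold kap
    rw [hs, Real.div_rpow hY0.le hq0.le]
    have h7 : (q : ℝ) ^ (t - 1) = q / (q : ℝ) ^ (2 - t) := by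
      rw [show t - 1 = 1 - (2 - t) by ring, Real.rpow_sub hq0 1 (2 - t), Real.rpow_one]
    rw [h7]
    ring
  rw [Finset.sum_congr rfl h1, ← Finset.mul_sum]
  calc Y ^ (2 - t) * ∑ q ∈ Finset.Icc 1 ⌊Y⌋₊, (q : ℝ) ^ (t - 1)
      ≤ Y ^ (2 - t) * ((⌊Y⌋₊ : ℝ) ^ t / t) := by
        gcongr
        exact sum_rpow_le t ht ht1 _
    _ ≤ Y ^ (2 - t) * (Y ^ t / t) := by
        gcongr
        exact Nat.floor_le hY0.le
    _ = (Y ^ (2 - t) * Y ^ t) * (1 / t) := by ring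
    _ = 1 / t * Y ^ 2 := by
        rw [← Real.rpow_add hY0, show 2 - t + t = ((2 : ℕ) : ℝ) by push_cast; ring, Real.rpow_natCast]
        ring

end Pool.Agent.H36.KS
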